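import Mathlib

/-!
An improved elementary Chebyshev bound: `θ(6n) ≤ θ(n) + n log 432`, hence
`θ(n) ≤ 1.2186 n` eventually.
-/

namespace Pool.Agent.Lib_f73150

open Finset

theorem prime_dvd_M {n p : ℕ} (hn : 6 ≤ n) (hp : p.Prime) (h1 : n < p) (h2 : p ≤ 6 * n) :
    p ∣ (6 * n).choose (3 * n) * (3 * n).choose n := by
  have e1 : (6 * n).choose (3 * n) * (3 * n).factorial * (3 * n).factorial = (6 * n).factorial := by
    have := Nat.choose_mul_factorial_mul_factorial (show 3 * n ≤ 6 * n by omega)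
    rwa [show 6 * n - 3 * n = 3 * n by omega] at this
  have e2 : (3 * n).choose n * n.factorial * (2 * n).factorial = (3 * n).factorial := by
    have := Nat.choose_mul_factorial_mul_factorial (show n ≤ 3 * n by omega)
    rwa [show 3 * n - n = 2 * n by omega] at this
  set M := (6 * n).choose (3 * n) * (3 * n).choose n with hM
  have e3 : M * ((3 * n).factorial * ((2 * n).factorial * n.factorial)) = (6 * n).factorial := by
    rw [← e1]
    nth_rewrite 3 [← e2]
    rw [hM]; ring
  have hM0 : M ≠ 0 := by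
    intro h
    rw [h, zero_mul] at e3
    exact (Nat.factorial_ne_zero _) e3.symm
  have hlog : ∀ m : ℕ, m ≤ 6 * n → Nat.log p m < 2 := by
    intro m hm
    have hp2 : m < p ^ 2 := by nlinarith
    rcases Nat.eq_zero_or_pos m with h0 | h0
    · subst h0; simp
    · exact Nat.log_lt_of_lt_pow h0.ne' hp2
  have hv : ∀ m : ℕ, m ≤ 6 * n → (m.factorial).factorization p = m / p := by
    intro m hm
    rw [Nat.factorization_factorial hp (hlog m hm)]
    simp
  have e4 := congrArg (fun x => x.factorization p) e3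
  have f1 : (3 * n).factorial ≠ 0 := Nat.factorial_ne_zero _
  have f2 : (2 * n).factorial ≠ 0 := Nat.factorial_ne_zero _
  have f3 : n.factorial ≠ 0 := Nat.factorial_ne_zero _
  rw [Nat.factorization_mul hM0 (mul_ne_zero f1 (mul_ne_zero f2 f3)),
    Nat.factorization_mul f1 (mul_ne_zero f2 f3), Nat.factorization_mul f2 f3] at e4
  simp only [Finsupp.add_apply] at e4
  rw [hv _ le_rfl, hv _ (by omega), hv _ (by omega), hv _ (by omega)] at e4
  have a0 : n / p = 0 := Nat.div_eq_of_lt h1
  have hpp : 0 < p := hp.pos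
  have a2 : 2 * n / p < 2 := by
    rw [Nat.div_lt_iff_lt_mul hpp]; omega
  have a3 : 3 * n / p < 3 := by
    rw [Nat.div_lt_iff_lt_mul hpp]; omega
  have b2 : (2 * n / p) * p ≤ 2 * n := Nat.div_mul_le_self _ _
  have b3 : (3 * n / p) * p ≤ 3 * n := Nat.div_mul_le_self _ _
  have key : 3 * n / p + 2 * n / p + 1 ≤ 6 * n / p := by
    rw [Nat.le_div_iff_mul_le hpp]
    generalize 2 * n / p = v at *
    generalize 3 * n / p = u at *
    interval_cases v <;> interval_cases u <;> omega
  have : 1 ≤ M.factorization p := by omega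
  exact Nat.dvd_of_factorization_pos (by omega)

theorem choose_three_bound (n : ℕ) : (3 * n).choose n * 4 ^ n ≤ 27 ^ n := by
  have h := add_pow (1 : ℕ) 2 (3 * n)
  have hle : (1 : ℕ) ^ n * 2 ^ (3 * n - n) * (3 * n).choose n ≤
      ∑ m ∈ range (3 * n + 1), (1 : ℕ) ^ m * 2 ^ (3 * n - m) * (3 * n).choose m :=
    Finset.single_le_sum (f := fun m => (1 : ℕ) ^ m * 2 ^ (3 * n - m) * (3 * n).choose m)
      (fun _ _ => Nat.zero_le _) (by simp; omega)
  simp only [Nat.cast_id] at h
  rw [← h] at hle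
  have e1 : 3 * n - n = 2 * n := by omega
  have e2 : (2 : ℕ) ^ (2 * n) = 4 ^ n := by rw [pow_mul]; norm_num
  have e3 : (1 + 2 : ℕ) ^ (3 * n) = 27 ^ n := by rw [pow_mul]; norm_num
  rw [e1, e2, e3, one_pow, one_mul] at hle
  linarith [hle, mul_comm ((3 * n).choose n) (4 ^ n)]

theorem M_bound (n : ℕ) : (6 * n).choose (3 * n) * (3 * n).choose n ≤ 432 ^ n := by
  have h1 : (6 * n).choose (3 * n) ≤ 64 ^ n := by
    have h := Nat.choose_le_two_pow (6 * n) (3 * n)
    have e : (2 : ℕ) ^ (6 * n) = 64 ^ n := by rw [pow_mul]; norm_num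
    rwa [e] at h
  have h2 := choose_three_bound n
  have h3 : (6 * n).choose (3 * n) * (3 * n).choose n * 4 ^ n ≤ 432 ^ n * 4 ^ n := by
    calc (6 * n).choose (3 * n) * (3 * n).choose n * 4 ^ n
        = (6 * n).choose (3 * n) * ((3 * n).choose n * 4 ^ n) := by ring
      _ ≤ 64 ^ n * 27 ^ n := Nat.mul_le_mul h1 h2
      _ = 432 ^ n * 4 ^ n := by rw [← mul_pow, ← mul_pow]; norm_num
  exact Nat.le_of_mul_le_mul_right h3 (by positivity)

theorem primorial_six_mul_le {n : ℕ} (hn : 6 ≤ n) :
    primorial (6 * n) ≤ primorial n * 432 ^ n := by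
  have hsplit : primorial (6 * n) =
      primorial n * ∏ p ∈ (Finset.Ioc n (6 * n)).filter Nat.Prime, p := by
    have hp : ∀ m, primorial m = ∏ p ∈ (Finset.range (m + 1)).filter Nat.Prime, p := by
      intro m; rfl
    rw [hp, hp, ← Finset.prod_union]
    · congr 1
      ext q
      simp only [mem_filter, mem_range, mem_union, mem_Ioc]
      constructor
      · rintro ⟨h1, h2⟩
        rcases Nat.lt_or_ge q (n + 1) with h | h
        · exact Or.inl ⟨h, h2⟩
        · exact Or.inr ⟨⟨by omega, by omega⟩, h2⟩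
      · rintro (⟨h1, h2⟩ | ⟨⟨h1, h3⟩, h2⟩)
        · exact ⟨by omega, h2⟩
        · exact ⟨by omega, h2⟩
    · rw [Finset.disjoint_left]
      intro q h1 h2
      simp only [mem_filter, mem_range, mem_Ioc] at h1 h2
      omega
  rw [hsplit]
  apply Nat.mul_le_mul_left
  refine le_trans ?_ (M_bound n)
  refine Nat.le_of_dvd ?_ ?_
  · exact Nat.mul_pos (Nat.choose_pos (by omega)) (Nat.choose_pos (by omega))
  · apply Finset.prod_primes_dvd
    · intro p hp
      simp only [mem_filter] at hp
      exact hp.2.prime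
    · intro p hp
      simp only [mem_filter, mem_Ioc] at hp
      exact prime_dvd_M hn hp.2 hp.1.1 hp.1.2

open Chebyshev Real

theorem theta_six_mul_le {n : ℕ} (hn : 6 ≤ n) :
    theta ((6 * n : ℕ) : ℝ) ≤ theta (n : ℝ) + n * Real.log 432 := by
  rw [theta_eq_log_primorial, theta_eq_log_primorial, Nat.floor_natCast, Nat.floor_natCast]
  have h := primorial_six_mul_le hn
  have h' : ((primorial (6 * n) : ℕ) : ℝ) ≤ (primorial n : ℝ) * 432 ^ n := by exact_mod_cast h
  have hpos : (0 : ℝ) < (primorial (6 * n) : ℕ) := by exact_mod_cast primorial_pos _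
  have hpos' : (0 : ℝ) < (primorial n : ℕ) := by exact_mod_cast primorial_pos _
  calc Real.log (primorial (6 * n) : ℕ) ≤ Real.log ((primorial n : ℝ) * 432 ^ n) :=
        Real.log_le_log hpos h'
    _ = Real.log (primorial n : ℕ) + n * Real.log 432 := by
        rw [Real.log_mul hpos'.ne' (by positivity), Real.log_pow]

end Pool.Agent.Lib_f73150
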