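import Mathlib
import Pool.Agent.Lib_f73150.Cheb

/-!
Asymptotic consequences of the elementary Chebyshev-type bounds, and the iteration lemma.
-/

namespace Pool.Agent.Lib_f73150

open Filter Chebyshev Real Topology

theorem theta_add_le (m r : ℕ) :
    theta ((m + r : ℕ) : ℝ) ≤ theta (m : ℝ) + r * Real.log ((m + r : ℕ) : ℝ) := by
  induction r with
  | zero => simp
  | succ r ih =>
    have h1 : theta ((m + (r + 1) : ℕ) : ℝ) ≤ theta ((m + r : ℕ) : ℝ)
        + Real.log ((m + (r + 1) : ℕ) : ℝ) := by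
      rw [theta_eq_sum_primesLE_log, theta_eq_sum_primesLE_log]
      have hsub : Nat.primesLE (m + (r + 1)) ⊆ insert (m + (r + 1)) (Nat.primesLE (m + r)) := by
        intro q hq
        rw [Nat.mem_primesLE] at hq
        rw [Finset.mem_insert, Nat.mem_primesLE]
        rcases Nat.lt_or_ge q (m + (r + 1)) with h | h
        · right; exact ⟨by omega, hq.2⟩
        · left; omega
      calc ∑ p ∈ Nat.primesLE (m + (r + 1)), Real.log (p : ℝ)
          ≤ ∑ p ∈ insert (m + (r + 1)) (Nat.primesLE (m + r)), Real.log (p : ℝ) := by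
            apply Finset.sum_le_sum_of_subset_of_nonneg hsub
            intro i _ _
            exact Real.log_natCast_nonneg i
        _ = Real.log ((m + (r + 1) : ℕ) : ℝ) + ∑ p ∈ Nat.primesLE (m + r), Real.log (p : ℝ) := by
            rw [Finset.sum_insert]
            intro h
            rw [Nat.mem_primesLE] at h
            omega
        _ = _ := by ring
    have h2 : Real.log ((m + r : ℕ) : ℝ) ≤ Real.log ((m + (r + 1) : ℕ) : ℝ) := by
      rcases Nat.eq_zero_or_pos (m + r) with h | h
      · rw [h]; simp only [Nat.cast_zero, Real.log_zero]; exact Real.log_natCast_nonneg _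
      · apply Real.log_le_log
        · exact_mod_cast h
        · exact_mod_cast (by omega : m + r ≤ m + (r + 1))
    have h3 : (r : ℝ) * Real.log ((m + r : ℕ) : ℝ) ≤ r * Real.log ((m + (r + 1) : ℕ) : ℝ) :=
      mul_le_mul_of_nonneg_left h2 (Nat.cast_nonneg r)
    push_cast at *
    linarith

theorem eventually_log_le_mul {c : ℝ} (hc : 0 < c) (C : ℝ) :
    ∀ᶠ n : ℕ in atTop, C * Real.log (n : ℝ) ≤ c * n := by
  have h : Tendsto (fun n : ℕ => Real.log (n : ℝ) / (n : ℝ)) atTop (𝓝 0) := by
    have h1 : Tendsto (fun x : ℝ => Real.log x / x) atTop (𝓝 0) := by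
      have := Real.isLittleO_log_id_atTop.tendsto_div_nhds_zero
      simpa using this
    exact h1.comp tendsto_natCast_atTop_atTop
  have h2 : ∀ᶠ n : ℕ in atTop, Real.log (n : ℝ) / (n : ℝ) < c / (|C| + 1) :=
    h.eventually (gt_mem_nhds (by positivity))
  filter_upwards [h2, eventually_gt_atTop 0] with n hn hn0
  have hn0' : (0 : ℝ) < n := by exact_mod_cast hn0
  rw [div_lt_div_iff₀ hn0' (by positivity)] at hn
  have hl : 0 ≤ Real.log (n : ℝ) := Real.log_natCast_nonneg n
  have : C * Real.log n ≤ (|C| + 1) * Real.log n := by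
    apply mul_le_mul_of_nonneg_right _ hl
    linarith [le_abs_self C]
  linarith

theorem theta_step {b b' : ℝ} (hb0 : 0 ≤ b) (hb : (b + Real.log 432) / 6 < b')
    (h : ∀ᶠ n : ℕ in atTop, theta (n : ℝ) ≤ b * n) :
    ∀ᶠ n : ℕ in atTop, theta (n : ℝ) ≤ b' * n := by
  obtain ⟨N, hN⟩ := eventually_atTop.1 h
  have hlog : ∀ᶠ n : ℕ in atTop, 5 * Real.log (n : ℝ) ≤ (b' - (b + Real.log 432) / 6) * n :=
    eventually_log_le_mul (by linarith) 5
  filter_upwards [hlog, eventually_ge_atTop (6 * N + 60)] with n hn hn2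
  obtain ⟨m, r, hr, rfl⟩ : ∃ m r, r < 6 ∧ n = 6 * m + r := ⟨n / 6, n % 6, by omega, by omega⟩
  have hmN : N ≤ m := by omega
  have hm6 : 6 ≤ m := by omega
  have h1 := theta_add_le (6 * m) r
  have h2 := theta_six_mul_le hm6
  have h3 := hN m hmN
  have hl : 0 ≤ Real.log ((6 * m + r : ℕ) : ℝ) := Real.log_natCast_nonneg _
  have hr' : (r : ℝ) ≤ 5 := by exact_mod_cast (by omega : r ≤ 5)
  have h4 : (r : ℝ) * Real.log ((6 * m + r : ℕ) : ℝ) ≤ 5 * Real.log ((6 * m + r : ℕ) : ℝ) :=
    mul_le_mul_of_nonneg_right hr' hl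
  have hlog432 : 0 ≤ Real.log 432 := Real.log_nonneg (by norm_num)
  have h5 : (b + Real.log 432) * m ≤ (b + Real.log 432) / 6 * ((6 * m + r : ℕ) : ℝ) := by
    push_cast
    have : (0 : ℝ) ≤ (b + Real.log 432) / 6 * r := by positivity
    nlinarith
  linarith

theorem theta_eventually : ∀ᶠ n : ℕ in atTop, theta (n : ℝ) ≤ 1.219 * n := by
  have hl432 : Real.log 432 ≤ 6.07 := by
    have h1 : Real.log 432 = 4 * Real.log 2 + 3 * Real.log 3 := by
      rw [show (432 : ℝ) = 2 ^ 4 * 3 ^ 3 by norm_num, Real.log_mul (by norm_num) (by norm_num),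
        Real.log_pow, Real.log_pow]
      norm_num
    have h2 := Real.log_two_lt_d9
    have h3 : Real.log 3 ≤ 1.0987 := by
      rw [Real.log_le_iff_le_exp (by norm_num)]
      have h := Real.exp_bound' (x := 0.0987) (by norm_num) (by norm_num) (n := 6) (by norm_num)
      have he : Real.exp 1 * Real.exp 0.0987 = Real.exp 1.0987 := by
        rw [← Real.exp_add]; norm_num
      rw [← he]
      have h1' := Real.exp_one_gt_d9
      have h2' : (1.1037 : ℝ) ≤ Real.exp 0.0987 := by
        have := Real.quadratic_le_exp_of_nonneg (x := 0.0987) (by norm_num)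
        have h3' := Real.sum_le_exp_of_nonneg (x := 0.0987) (by norm_num) 5
        refine le_trans ?_ h3'
        simp [Finset.sum_range_succ, Nat.factorial]
        norm_num
      nlinarith
    rw [h1]; linarith
  have h0 : ∀ᶠ n : ℕ in atTop, theta (n : ℝ) ≤ 1.387 * n := by
    filter_upwards with n
    have h1 := theta_le_log4_mul_x (x := (n : ℝ)) (Nat.cast_nonneg n)
    have h2 : Real.log 4 ≤ 1.387 := by
      rw [show (4 : ℝ) = 2 ^ 2 by norm_num, Real.log_pow]
      have := Real.log_two_lt_d9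
      push_cast; linarith
    have h3 : Real.log 4 * (n : ℝ) ≤ 1.387 * n := mul_le_mul_of_nonneg_right h2 (Nat.cast_nonneg n)
    linarith
  have h1 := theta_step (b' := 1.243) (by norm_num) (by linarith) h0
  exact theta_step (b' := 1.219) (by norm_num) (by linarith) h1

end Pool.Agent.Lib_f73150
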