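import Mathlib

/-!
Pairwise coprime integers in short intervals: basic definitions and the reduction from
pairwise coprime sets to complete sequences.
-/

namespace Pool.Agent.Lib_f73150

/-- `A` (a finite set of natural numbers, i.e. a strictly increasing finite sequence) is a
complete sequence in the interval `(m, m+k]`: its terms lie in the interval, they are pairwise
coprime, and every integer of the interval has a common factor `> 1` with some term. -/
def IsComplete (m k : ℕ) (A : Finset ℕ) : Prop :=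
  (∀ a ∈ A, m < a ∧ a ≤ m + k) ∧
  (∀ a ∈ A, ∀ b ∈ A, a ≠ b → Nat.gcd a b = 1) ∧
  ∀ n : ℕ, m < n → n ≤ m + k → ∃ a ∈ A, 1 < Nat.gcd n a

/-- A pairwise coprime subset of `(m, m+k]`, `m ≥ 1`, extends to a complete sequence. -/
theorem exists_complete {m k : ℕ} (hm : 1 ≤ m) (A : Finset ℕ)
    (h1 : ∀ a ∈ A, m < a ∧ a ≤ m + k)
    (h2 : ∀ a ∈ A, ∀ b ∈ A, a ≠ b → Nat.gcd a b = 1) :
    ∃ B : Finset ℕ, A ⊆ B ∧ IsComplete m k B := by
  classical
  -- the family of pairwise coprime supersets inside the interval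
  let Fam : Finset (Finset ℕ) := (Finset.Ioc m (m + k)).powerset.filter
    (fun B => A ⊆ B ∧ ∀ a ∈ B, ∀ b ∈ B, a ≠ b → Nat.gcd a b = 1)
  have hA : A ∈ Fam := by
    simp only [Fam, Finset.mem_filter, Finset.mem_powerset]
    refine ⟨?_, Finset.Subset.refl _, h2⟩
    intro a ha
    rw [Finset.mem_Ioc]
    exact h1 a ha
  obtain ⟨B, hB, hmax⟩ := Finset.exists_max_image Fam Finset.card ⟨A, hA⟩
  simp only [Fam, Finset.mem_filter, Finset.mem_powerset] at hB
  obtain ⟨hBI, hAB, hBc⟩ := hB
  refine ⟨B, hAB, ?_, hBc, ?_⟩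
  · intro a ha
    have := hBI ha
    rwa [Finset.mem_Ioc] at this
  · intro n hn1 hn2
    by_contra hcon
    push Not at hcon
    have hnB : n ∉ B := by
      intro hnB
      have := hcon n hnB
      rw [Nat.gcd_self] at this
      omega
    have hins : insert n B ∈ Fam := by
      simp only [Fam, Finset.mem_filter, Finset.mem_powerset]
      refine ⟨?_, ?_, ?_⟩
      · intro a ha
        rcases Finset.mem_insert.1 ha with rfl | ha
        · rw [Finset.mem_Ioc]; exact ⟨hn1, hn2⟩
        · exact hBI ha
      · exact hAB.trans (Finset.subset_insert _ _)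
      · intro a ha b hb hab
        rcases Finset.mem_insert.1 ha with ha' | ha <;>
          rcases Finset.mem_insert.1 hb with hb' | hb
        · exact absurd (ha'.trans hb'.symm) hab
        · have h := hcon b hb
          rw [← ha'] at h
          have hpos : 0 < Nat.gcd a b := Nat.gcd_pos_of_pos_left _ (by omega)
          omega
        · have h := hcon a ha
          rw [← hb', Nat.gcd_comm] at h
          have hpos : 0 < Nat.gcd a b := Nat.gcd_pos_of_pos_right _ (by omega)
          omega
        · exact hBc a ha b hb hab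
    have := hmax _ hins
    rw [Finset.card_insert_of_notMem hnB] at this
    omega

/-- Transfer: a finite set `S` of integers in `[-u, v]` such that every prime `p ≤ u + v` has a
residue class containing at most one element of `S`, gives a complete sequence of length
at least `S.card` in an interval `(m, m + (u+v+1)]` with `m` arbitrarily large. -/
theorem exists_complete_of_classes (u v : ℕ) (S : Finset ℤ)
    (hS : ∀ s ∈ S, -(u : ℤ) ≤ s ∧ s ≤ v)
    (hcl : ∀ p : ℕ, p.Prime → p ≤ u + v → ∃ r : ℤ, ∀ s ∈ S, ∀ t ∈ S,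
      (p : ℤ) ∣ (s - r) → (p : ℤ) ∣ (t - r) → s = t) (L : ℕ) :
    ∃ m : ℕ, L ≤ m ∧ ∃ A : Finset ℕ, IsComplete m (u + v + 1) A ∧ S.card ≤ A.card := by
  classical
  choose! r hr using hcl
  -- CRT: choose N ≡ -r_p mod p
  let P : Finset ℕ := (Finset.range (u + v + 1)).filter Nat.Prime
  let a : ℕ → ℕ := fun p => ((- r p) % (p : ℤ)).toNat
  have hP : ∀ p, p ∈ P ↔ p.Prime ∧ p ≤ u + v := by
    intro p
    simp only [P, Finset.mem_filter, Finset.mem_range]
    constructor
    · rintro ⟨h1, h2⟩; exact ⟨h2, by omega⟩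
    · rintro ⟨h1, h2⟩; exact ⟨by omega, h1⟩
  have hcop : Set.Pairwise (P : Set ℕ) (fun p q => Nat.Coprime (id p) (id q)) := by
    intro p hp q hq hpq
    have hp' := ((hP p).1 hp).1
    have hq' := ((hP q).1 hq).1
    exact (Nat.coprime_primes hp' hq').2 hpq
  obtain ⟨N0, hN0⟩ := Nat.chineseRemainderOfFinset a id P
    (fun p hp => ((hP p).1 hp).1.ne_zero) hcop
  let Q : ℕ := ∏ p ∈ P, p
  have hQ : 0 < Q := Finset.prod_pos (fun p hp => ((hP p).1 hp).1.pos)
  let N : ℕ := N0 + Q * (L + u + 2)
  have hNbig : L + u + 2 ≤ N := by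
    have : 1 * (L + u + 2) ≤ Q * (L + u + 2) := Nat.mul_le_mul_right _ hQ
    simp only [N]; omega
  have hNmod : ∀ p ∈ P, (p : ℤ) ∣ ((N : ℤ) + r p) := by
    intro p hp
    have hpp := ((hP p).1 hp).1
    have h1 : N0 ≡ a p [MOD p] := hN0 p hp
    have h2 : (p : ℤ) ∣ (a p : ℤ) - N0 := (Nat.modEq_iff_dvd).1 h1
    have h3 : (a p : ℤ) = (- r p) % (p : ℤ) := by
      simp only [a]
      exact Int.toNat_of_nonneg (Int.emod_nonneg _ (by exact_mod_cast hpp.ne_zero))
    have h4 : (p : ℤ) ∣ (- r p) - (- r p) % (p : ℤ) := Int.dvd_self_sub_emod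
    have h5 : (p : ℤ) ∣ (Q : ℤ) := by
      exact_mod_cast Finset.dvd_prod_of_mem (fun p => p) hp
    have h6 : (N : ℤ) + r p = -((a p : ℤ) - N0) - ((- r p) - (- r p) % (p : ℤ))
        + (Q : ℤ) * (L + u + 2) := by
      simp only [N]; push_cast; rw [h3]; ring
    rw [h6]
    exact dvd_add (dvd_sub (h2.neg_right) h4) (h5.mul_right _)
  let m : ℕ := N - u - 1
  have hm : (m : ℤ) = N - u - 1 := by
    simp only [m]; omega
  let g : ℤ → ℕ := fun s => ((N : ℤ) + s).toNat
  have hg : ∀ s ∈ S, ((g s : ℕ) : ℤ) = N + s := by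
    intro s hs
    have := hS s hs
    simp only [g]
    exact Int.toNat_of_nonneg (by omega)
  have hginj : Set.InjOn g (S : Set ℤ) := by
    intro s hs t ht hst
    have h1 := hg s hs
    have h2 := hg t ht
    have : ((g s : ℕ) : ℤ) = (g t : ℕ) := by exact_mod_cast hst
    omega
  have key : ∀ s ∈ S, ∀ t ∈ S, s ≠ t → Nat.gcd (g s) (g t) = 1 := by
    intro s hs t ht hst
    by_contra hne
    obtain ⟨p, hp, hpd⟩ := Nat.exists_prime_and_dvd hne
    have hps : (p : ℤ) ∣ N + s := by
      rw [← hg s hs]; exact_mod_cast hpd.trans (Nat.gcd_dvd_left _ _)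
    have hpt : (p : ℤ) ∣ N + t := by
      rw [← hg t ht]; exact_mod_cast hpd.trans (Nat.gcd_dvd_right _ _)
    have hd : (p : ℤ) ∣ s - t := by
      have := dvd_sub hps hpt
      simpa using this
    have hple : (p : ℤ) ≤ u + v := by
      have h1 := hS s hs
      have h2 := hS t ht
      rcases lt_or_gt_of_ne hst with hlt | hgt
      · have : (p : ℤ) ∣ t - s := by
          have := hd.neg_right; simpa using this
        have := Int.le_of_dvd (by omega) this
        omega
      · have := Int.le_of_dvd (by omega) hd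
        omega
    have hple' : p ≤ u + v := by exact_mod_cast hple
    have hpP : p ∈ P := (hP p).2 ⟨hp, hple'⟩
    have hN := hNmod p hpP
    refine hst (hr p hp hple' s hs t ht ?_ ?_)
    · have := dvd_sub hps hN
      have h : (N : ℤ) + s - (N + r p) = s - r p := by ring
      rwa [h] at this
    · have := dvd_sub hpt hN
      have h : (N : ℤ) + t - (N + r p) = t - r p := by ring
      rwa [h] at this
  obtain ⟨B, hSB, hB⟩ := exists_complete (m := m) (k := u + v + 1) (by omega) (S.image g)
    (by
      intro x hx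
      obtain ⟨s, hs, rfl⟩ := Finset.mem_image.1 hx
      have h1 := hg s hs
      have h2 := hS s hs
      constructor <;> omega)
    (by
      intro x hx y hy hxy
      obtain ⟨s, hs, rfl⟩ := Finset.mem_image.1 hx
      obtain ⟨t, ht, rfl⟩ := Finset.mem_image.1 hy
      exact key s hs t ht (fun h => hxy (by rw [h])))
  refine ⟨m, by omega, B, hB, ?_⟩
  calc S.card = (S.image g).card := (Finset.card_image_of_injOn hginj).symm
    _ ≤ B.card := Finset.card_le_card hSB

end Pool.Agent.Lib_f73150
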