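import Mathlib
import Pool.Agent.Lib_f73150.Basic

/-!
The symmetric construction: the interval `[N - x, N + x]`, with `N` divisible by all primes
`p ≤ π(x)`, contains `2 + 2π(x) - π(π(x))` pairwise coprime integers for suitable `N`.
-/

namespace Pool.Agent.Lib_f73150

open Finset

/-- pigeonhole: if `S.card < 2 p`, some residue class mod `p` contains at most one element. -/
theorem exists_sparse_class {p : ℕ} (hp : 0 < p) (S : Finset ℤ) (hS : S.card < 2 * p) :
    ∃ r : ℤ, ∀ s ∈ S, ∀ t ∈ S, (p : ℤ) ∣ (s - r) → (p : ℤ) ∣ (t - r) → s = t := by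
  classical
  by_contra hcon
  push Not at hcon
  have : NeZero p := ⟨hp.ne'⟩
  have h1 : S.card = ∑ c : ZMod p, (S.filter (fun s : ℤ => (s : ZMod p) = c)).card :=
    Finset.card_eq_sum_card_fiberwise (fun s _ => Finset.mem_coe.2 (Finset.mem_univ _))
  have h2 : ∀ c : ZMod p, 2 ≤ (S.filter (fun s : ℤ => (s : ZMod p) = c)).card := by
    intro c
    obtain ⟨s, hs, t, ht, hsd, htd, hst⟩ := hcon (c.val : ℤ)
    have hc : ((c.val : ℤ) : ZMod p) = c := by
      simp
    have key : ∀ s : ℤ, (p : ℤ) ∣ s - (c.val : ℤ) → (s : ZMod p) = c := by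
      intro s hs
      rw [← hc]
      symm
      rw [ZMod.intCast_eq_intCast_iff_dvd_sub]
      exact hs
    have : 1 < (S.filter (fun s : ℤ => (s : ZMod p) = c)).card := by
      rw [Finset.one_lt_card]
      exact ⟨s, by rw [mem_filter]; exact ⟨hs, key s hsd⟩, t,
        by rw [mem_filter]; exact ⟨ht, key t htd⟩, hst⟩
    omega
  have h3 : ∑ _c : ZMod p, 2 ≤ ∑ c : ZMod p, (S.filter (fun s : ℤ => (s : ZMod p) = c)).card :=
    Finset.sum_le_sum (fun c _ => h2 c)
  rw [← h1, Finset.sum_const, Finset.card_univ, ZMod.card, smul_eq_mul] at h3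
  omega

theorem primeCounting_eq_card (v : ℕ) :
    Nat.primeCounting v = ((Finset.range (v + 1)).filter Nat.Prime).card := by
  rw [Nat.primeCounting, Nat.primeCounting', Nat.count_eq_card_filter_range]

theorem construct (x : ℕ) (hx : 3 ≤ x) (L : ℕ) :
    ∃ m : ℕ, L ≤ m ∧ ∃ A : Finset ℕ, IsComplete m (2 * x + 1) A ∧
      2 + 2 * Nat.primeCounting x ≤ A.card + Nat.primeCounting (Nat.primeCounting x) := by
  classical
  set B := Nat.primeCounting x with hB
  have hB2 : 2 ≤ B := by
    have h : Nat.primeCounting 3 ≤ Nat.primeCounting x := Nat.monotone_primeCounting hx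
    have h3 : Nat.primeCounting 3 = 2 := by decide
    omega
  have hBx : B ≤ x := by
    rw [hB, primeCounting_eq_card]
    have hsub : (Finset.range (x + 1)).filter Nat.Prime ⊆ (Finset.Ioc 0 x) := by
      intro q hq
      rw [mem_filter, mem_range] at hq
      rw [mem_Ioc]
      exact ⟨hq.2.pos, by omega⟩
    have := Finset.card_le_card hsub
    rwa [Nat.card_Ioc, Nat.sub_zero] at this
  have hpB : 1 ≤ Nat.primeCounting B := by
    have h : Nat.primeCounting 2 ≤ Nat.primeCounting B := Nat.monotone_primeCounting hB2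
    have h3 : Nat.primeCounting 2 = 1 := by decide
    omega
  let P : Finset ℕ := (Finset.range (x + 1)).filter Nat.Prime
  let Q : Finset ℕ := (Finset.Ioc B x).filter Nat.Prime
  have hPcard : P.card = B := (primeCounting_eq_card x).symm
  have hQcard : Q.card + Nat.primeCounting B = B := by
    rw [primeCounting_eq_card B]
    have hdis : Disjoint Q ((Finset.range (B + 1)).filter Nat.Prime) := by
      rw [Finset.disjoint_left]
      intro q h1 h2
      simp only [Q, mem_filter, mem_Ioc, mem_range] at h1 h2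
      omega
    rw [← Finset.card_union_of_disjoint hdis]
    have : Q ∪ (Finset.range (B + 1)).filter Nat.Prime = P := by
      ext q
      simp only [Q, P, mem_union, mem_filter, mem_Ioc, mem_range]
      constructor
      · rintro (⟨⟨h1, h2⟩, h3⟩ | ⟨h1, h3⟩)
        · exact ⟨by omega, h3⟩
        · exact ⟨by omega, h3⟩
      · rintro ⟨h1, h3⟩
        rcases Nat.lt_or_ge B q with h | h
        · exact Or.inl ⟨⟨h, by omega⟩, h3⟩
        · exact Or.inr ⟨by omega, h3⟩
    rw [this, hPcard]
  let P' : Finset ℤ := P.image (fun p : ℕ => (p : ℤ))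
  let Q' : Finset ℤ := Q.image (fun p : ℕ => -(p : ℤ))
  have hP'card : P'.card = P.card :=
    Finset.card_image_of_injective _ (fun a b h => by exact_mod_cast h)
  have hQ'card : Q'.card = Q.card :=
    Finset.card_image_of_injective _ (fun a b h => by
      have : (a : ℤ) = b := by linarith [show -(a : ℤ) = -(b : ℤ) from h]
      exact_mod_cast this)
  have hP'mem : ∀ s ∈ P', ∃ q : ℕ, q.Prime ∧ q ≤ x ∧ s = q := by
    intro s hs
    obtain ⟨q, hq, rfl⟩ := Finset.mem_image.1 hs
    simp only [P, mem_filter, mem_range] at hq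
    exact ⟨q, hq.2, by omega, rfl⟩
  have hQ'mem : ∀ s ∈ Q', ∃ q : ℕ, q.Prime ∧ B < q ∧ q ≤ x ∧ s = -(q : ℤ) := by
    intro s hs
    obtain ⟨q, hq, rfl⟩ := Finset.mem_image.1 hs
    simp only [Q, mem_filter, mem_Ioc] at hq
    exact ⟨q, hq.2, hq.1.1, hq.1.2, rfl⟩
  have hdis : Disjoint P' Q' := by
    rw [Finset.disjoint_left]
    intro s h1 h2
    obtain ⟨q, hq, -, rfl⟩ := hP'mem s h1
    obtain ⟨q', hq', -, -, he⟩ := hQ'mem _ h2
    have := hq.pos
    omega
  let S : Finset ℤ := insert (-1) (insert 1 (P' ∪ Q'))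
  have h1n : (1 : ℤ) ∉ P' ∪ Q' := by
    intro h
    rcases Finset.mem_union.1 h with h | h
    · obtain ⟨q, hq, -, he⟩ := hP'mem _ h
      have := hq.one_lt
      omega
    · obtain ⟨q, hq, -, -, he⟩ := hQ'mem _ h
      omega
  have h2n : (-1 : ℤ) ∉ insert (1 : ℤ) (P' ∪ Q') := by
    intro h
    rcases Finset.mem_insert.1 h with h | h
    · omega
    rcases Finset.mem_union.1 h with h | h
    · obtain ⟨q, hq, -, he⟩ := hP'mem _ h
      omega
    · obtain ⟨q, hq, -, -, he⟩ := hQ'mem _ h
      have := hq.one_lt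
      omega
  have hScard : S.card + Nat.primeCounting B = 2 + 2 * B := by
    simp only [S]
    rw [Finset.card_insert_of_notMem h2n, Finset.card_insert_of_notMem h1n,
      Finset.card_union_of_disjoint hdis, hP'card, hQ'card, hPcard]
    omega
  have hSmem : ∀ s ∈ S, s = -1 ∨ s = 1 ∨ (∃ q : ℕ, q.Prime ∧ q ≤ x ∧ s = q) ∨
      (∃ q : ℕ, q.Prime ∧ B < q ∧ q ≤ x ∧ s = -(q : ℤ)) := by
    intro s hs
    simp only [S, Finset.mem_insert, Finset.mem_union] at hs
    rcases hs with h | h | h | h
    · exact Or.inl h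
    · exact Or.inr (Or.inl h)
    · exact Or.inr (Or.inr (Or.inl (hP'mem s h)))
    · exact Or.inr (Or.inr (Or.inr (hQ'mem s h)))
  have hSI : ∀ s ∈ S, -(x : ℤ) ≤ s ∧ s ≤ (x : ℤ) := by
    intro s hs
    rcases hSmem s hs with rfl | rfl | ⟨q, -, hqv, rfl⟩ | ⟨q, -, -, hqv, rfl⟩
    · constructor <;> omega
    · constructor <;> omega
    · constructor <;> omega
    · constructor <;> omega
  have hcl : ∀ p : ℕ, p.Prime → p ≤ x + x → ∃ r : ℤ, ∀ s ∈ S, ∀ t ∈ S,
      (p : ℤ) ∣ (s - r) → (p : ℤ) ∣ (t - r) → s = t := by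
    intro p hp _
    rcases Nat.lt_or_ge B p with hpB' | hpB'
    · apply exists_sparse_class hp.pos S
      omega
    · refine ⟨0, ?_⟩
      have aux : ∀ s ∈ S, (p : ℤ) ∣ s - 0 → s = p := by
        intro s hs hd
        rw [sub_zero] at hd
        rcases hSmem s hs with rfl | rfl | ⟨q, hq, -, rfl⟩ | ⟨q, hq, hBq, -, rfl⟩
        · exfalso
          have : (p : ℤ) ∣ 1 := by
            have := hd.neg_right; simpa using this
          have : p ∣ 1 := by exact_mod_cast this
          exact hp.one_lt.ne' (Nat.dvd_one.1 this)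
        · exfalso
          have : p ∣ 1 := by exact_mod_cast hd
          exact hp.one_lt.ne' (Nat.dvd_one.1 this)
        · have : p ∣ q := by exact_mod_cast hd
          rw [(Nat.prime_dvd_prime_iff_eq hp hq).1 this]
        · exfalso
          have h1 : (p : ℤ) ∣ (q : ℤ) := by
            have := hd.neg_right; simpa using this
          have : p ∣ q := by exact_mod_cast h1
          have := (Nat.prime_dvd_prime_iff_eq hp hq).1 this
          omega
      intro s hs t ht hsd htd
      rw [aux s hs hsd, aux t ht htd]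
  obtain ⟨m, hm, A, hA, hcard⟩ := exists_complete_of_classes x x S hSI hcl L
  refine ⟨m, hm, A, ?_, ?_⟩
  · have : x + x + 1 = 2 * x + 1 := by ring
    rwa [this] at hA
  · omega

end Pool.Agent.Lib_f73150
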