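import Mathlib
import Pool.Agent.Lib_f73150.Asym

/-!
The prime counting function: bounds and the iteration lemma.
-/

namespace Pool.Agent.Lib_f73150

open Filter Chebyshev Real Topology

/-- `PiLe b` : eventually `π(n) ≤ b n / log n`. -/
def PiLe (b : ℝ) : Prop :=
  ∀ᶠ n : ℕ in atTop, (Nat.primeCounting n : ℝ) ≤ b * n / Real.log n

theorem tendsto_log_nat : Tendsto (fun n : ℕ => Real.log (n : ℝ)) atTop atTop :=
  Real.tendsto_log_atTop.comp tendsto_natCast_atTop_atTop

theorem piLe_of_theta {b b' : ℝ} (hb : b < b')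
    (h : ∀ᶠ n : ℕ in atTop, theta (n : ℝ) ≤ b * n) : PiLe b' := by
  have h1 := primeCounting_sub_theta_div_log_isBigO
  obtain ⟨C, hC0, hC⟩ := h1.exists_pos
  have hC' : ∀ᶠ n : ℕ in atTop, ‖(Nat.primeCounting ⌊(n : ℝ)⌋₊ : ℝ) - theta (n : ℝ) / Real.log n‖
      ≤ C * ‖(n : ℝ) / Real.log n ^ 2‖ := tendsto_natCast_atTop_atTop.eventually hC.bound
  have h2 : ∀ᶠ n : ℕ in atTop, C / (b' - b) ≤ Real.log (n : ℝ) :=
    tendsto_log_nat.eventually_ge_atTop _
  have h3 : ∀ᶠ n : ℕ in atTop, 1 ≤ Real.log (n : ℝ) := tendsto_log_nat.eventually_ge_atTop _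
  filter_upwards [h, hC', h2, h3] with n hn hc hl hl1
  rw [Nat.floor_natCast] at hc
  have hlpos : 0 < Real.log (n : ℝ) := by linarith
  have hn0 : (0 : ℝ) ≤ n := Nat.cast_nonneg n
  have hc2 : (Nat.primeCounting n : ℝ) - theta (n : ℝ) / Real.log n ≤ C * (n / Real.log n ^ 2) := by
    refine le_trans (le_abs_self _) ?_
    rw [← Real.norm_eq_abs]
    refine le_trans hc ?_
    rw [Real.norm_of_nonneg (by positivity)]
  have hc3 : C * (n / Real.log n ^ 2) ≤ (b' - b) * (n / Real.log n) := by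
    have hbb : 0 < b' - b := by linarith
    rw [div_le_iff₀ hbb] at hl
    have e : C * ((n : ℝ) / Real.log n ^ 2) = (C / Real.log n) * (n / Real.log n) := by
      field_simp
    rw [e]
    apply mul_le_mul_of_nonneg_right _ (by positivity)
    rw [div_le_iff₀ hlpos]
    linarith
  have hc4 : theta (n : ℝ) / Real.log n ≤ b * (n / Real.log n) := by
    rw [← mul_div_assoc]
    gcongr
  have e2 : b' * n / Real.log n = b * (n / Real.log n) + (b' - b) * (n / Real.log n) := by
    field_simp; ring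
  rw [e2]; linarith

/-- Chebyshev lower bound (eventual form). -/
theorem pi_ge_eventually {a : ℝ} (ha : a < Real.log 2) :
    ∀ᶠ n : ℕ in atTop, a * n / Real.log n ≤ (Nat.primeCounting n : ℝ) := by
  have h1 : ∀ᶠ n : ℕ in atTop, 2 * Real.log (n : ℝ) ≤ (Real.log 2 - a) * n :=
    eventually_log_le_mul (by linarith) 2
  have h3 : ∀ᶠ n : ℕ in atTop, 1 ≤ Real.log (n : ℝ) := tendsto_log_nat.eventually_ge_atTop _
  filter_upwards [h1, h3, eventually_ge_atTop 2] with n hn hl hn2
  have hg := Chebyshev.pi_ge n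
  refine le_trans ?_ hg
  have hlpos : 0 < Real.log (n : ℝ) := by linarith
  apply div_le_div_of_nonneg_right _ hlpos.le
  have hn2' : (2 : ℝ) ≤ n := by exact_mod_cast hn2
  have : Real.log (n + 1) ≤ 2 * Real.log n := by
    have e : 2 * Real.log (n : ℝ) = Real.log ((n : ℝ) ^ 2) := by rw [Real.log_pow]; norm_num
    rw [e]
    apply Real.log_le_log (by positivity)
    nlinarith
  nlinarith

/-- `log π(n) ≥ (1-ε) log n` eventually. -/
theorem log_pi_ge {ε : ℝ} (hε : 0 < ε) :
    ∀ᶠ n : ℕ in atTop, (1 - ε) * Real.log n ≤ Real.log (Nat.primeCounting n : ℝ) := by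
  have h1 := pi_ge_eventually (a := 1 / 2) (by have := Real.log_two_gt_d9; linarith)
  -- log 2 + log log n ≤ ε log n
  have h2 : ∀ᶠ n : ℕ in atTop, Real.log 2 + Real.log (Real.log n) ≤ ε * Real.log n := by
    have hx : ∀ᶠ x : ℝ in atTop, Real.log 2 + Real.log x ≤ ε * x := by
      have ht : Tendsto (fun x : ℝ => Real.log x / x) atTop (𝓝 0) := by
        have := Real.isLittleO_log_id_atTop.tendsto_div_nhds_zero
        simpa using this
      have h3 : ∀ᶠ x : ℝ in atTop, Real.log x / x < ε / 2 :=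
        ht.eventually (gt_mem_nhds (by positivity))
      filter_upwards [h3, eventually_ge_atTop (2 * Real.log 2 / ε + 1)] with x hx hx2
      have hx0 : 0 < x := by
        have : 0 ≤ 2 * Real.log 2 / ε := by
          have : 0 < Real.log 2 := Real.log_pos (by norm_num)
          positivity
        linarith
      rw [div_lt_iff₀ hx0] at hx
      have h4 : 2 * Real.log 2 / ε ≤ x := by linarith
      rw [div_le_iff₀ hε] at h4
      linarith
    exact tendsto_log_nat.eventually hx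
  have h3 : ∀ᶠ n : ℕ in atTop, 1 ≤ Real.log (n : ℝ) := tendsto_log_nat.eventually_ge_atTop _
  filter_upwards [h1, h2, h3, eventually_ge_atTop 2] with n hn hl hl1 hn2
  have hlpos : 0 < Real.log (n : ℝ) := by linarith
  have hn0 : (0 : ℝ) < n := by exact_mod_cast (by omega : 0 < n)
  have h5 : Real.log (1 / 2 * n / Real.log n) ≤ Real.log (Nat.primeCounting n : ℝ) :=
    Real.log_le_log (by positivity) hn
  have h6 : Real.log (1 / 2 * n / Real.log n) = Real.log n - Real.log 2 - Real.log (Real.log n) := by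
    rw [Real.log_div (by positivity) hlpos.ne', Real.log_mul (by norm_num) hn0.ne',
      Real.log_div (by norm_num) (by norm_num), Real.log_one]
    ring
  rw [h6] at h5
  linarith

/-- Consequence of `PiLe b`: bound for `π(π(x))` plus the error term. -/
theorem pipi_bound {b K : ℝ} (hb : 0 < b) (hK : b ^ 2 + 1 / 10 < K) (h : PiLe b) :
    ∀ᶠ x : ℕ in atTop, (Nat.primeCounting (Nat.primeCounting x) : ℝ)
      + ((2 * x + 1 : ℕ) : ℝ) / (20 * Real.log ((2 * x + 1 : ℕ) : ℝ) ^ 2)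
      ≤ K * x / Real.log x ^ 2 := by
  -- choose ε
  obtain ⟨δ, hδ0, hδ⟩ : ∃ δ : ℝ, 0 < δ ∧ b ^ 2 + 1 / 10 + 2 * δ < K :=
    ⟨(K - (b ^ 2 + 1 / 10)) / 4, by linarith, by linarith⟩
  -- ε with b²/(1-ε) ≤ b²+δ
  obtain ⟨ε, hε0, hε1, hε⟩ : ∃ ε : ℝ, 0 < ε ∧ ε < 1 ∧ b ^ 2 ≤ (b ^ 2 + δ) * (1 - ε) := by
    refine ⟨δ / (b ^ 2 + δ) / 2, by positivity, ?_, ?_⟩
    · rw [div_div, div_lt_one (by positivity)]
      nlinarith [sq_nonneg b]
    · have : (b ^ 2 + δ) * (1 - δ / (b ^ 2 + δ) / 2) = b ^ 2 + δ / 2 := by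
        field_simp; ring
      rw [this]; linarith
  have hpi_tendsto : Tendsto (fun n : ℕ => Nat.primeCounting n) atTop atTop :=
    Nat.tendsto_primeCounting
  have h1 : ∀ᶠ x : ℕ in atTop, (Nat.primeCounting (Nat.primeCounting x) : ℝ) ≤
      b * (Nat.primeCounting x : ℝ) / Real.log (Nat.primeCounting x : ℝ) :=
    hpi_tendsto.eventually h
  have h3 : ∀ᶠ n : ℕ in atTop, 1 ≤ Real.log (n : ℝ) := tendsto_log_nat.eventually_ge_atTop _
  have h4 : ∀ᶠ n : ℕ in atTop, 1 / (20 * δ) ≤ (n : ℝ) :=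
    tendsto_natCast_atTop_atTop.eventually_ge_atTop _
  filter_upwards [h1, h, log_pi_ge hε0, h3, h4] with x h1 h2 hlp hl hx
  have hlpos : 0 < Real.log (x : ℝ) := by linarith
  have hx0 : (0 : ℝ) < x := by
    rcases Nat.eq_zero_or_pos x with h0 | h0
    · rw [h0] at hl; simp at hl; linarith
    · exact_mod_cast h0
  have h1e : 0 < 1 - ε := by linarith
  have hlp0 : 0 < Real.log (Nat.primeCounting x : ℝ) := lt_of_lt_of_le (by positivity) hlp
  have hA : (Nat.primeCounting (Nat.primeCounting x) : ℝ) ≤ (b ^ 2 + δ) * x / Real.log x ^ 2 := by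
    calc (Nat.primeCounting (Nat.primeCounting x) : ℝ)
        ≤ b * (Nat.primeCounting x : ℝ) / Real.log (Nat.primeCounting x : ℝ) := h1
      _ ≤ b * (b * x / Real.log x) / ((1 - ε) * Real.log x) := by
          gcongr
      _ = (b ^ 2 / (1 - ε)) * x / Real.log x ^ 2 := by
          field_simp
      _ ≤ (b ^ 2 + δ) * x / Real.log x ^ 2 := by
          have : b ^ 2 / (1 - ε) ≤ b ^ 2 + δ := by
            rw [div_le_iff₀ h1e]; exact hε
          gcongr
  have hB : ((2 * x + 1 : ℕ) : ℝ) / (20 * Real.log ((2 * x + 1 : ℕ) : ℝ) ^ 2)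
      ≤ (1 / 10 + δ) * x / Real.log x ^ 2 := by
    have hlog : Real.log (x : ℝ) ≤ Real.log ((2 * x + 1 : ℕ) : ℝ) := by
      apply Real.log_le_log hx0
      push_cast; linarith
    calc ((2 * x + 1 : ℕ) : ℝ) / (20 * Real.log ((2 * x + 1 : ℕ) : ℝ) ^ 2)
        ≤ ((2 * x + 1 : ℕ) : ℝ) / (20 * Real.log x ^ 2) := by
          gcongr
      _ = ((2 * x + 1) / 20) / Real.log x ^ 2 := by
          push_cast; field_simp
      _ ≤ (1 / 10 + δ) * x / Real.log x ^ 2 := by
          apply div_le_div_of_nonneg_right _ (by positivity)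
          rw [div_le_iff₀ (by positivity)] at hx
          nlinarith
  calc _ ≤ (b ^ 2 + δ) * x / Real.log x ^ 2 + (1 / 10 + δ) * x / Real.log x ^ 2 := add_le_add hA hB
    _ = (b ^ 2 + 1 / 10 + 2 * δ) * x / Real.log x ^ 2 := by ring
    _ ≤ K * x / Real.log x ^ 2 := by gcongr

/-- Telescoping bound for `∑ 1/(i c + ℓ)²`. -/
theorem sum_inv_sq_le {c l : ℝ} (hc : 0 < c) (hl : 0 < l) (n : ℕ) :
    ∑ i ∈ Finset.range n, 1 / ((i : ℝ) * c + l) ^ 2 ≤ 1 / l ^ 2 + 1 / (c * l) := by
  have key : ∀ n : ℕ, ∑ i ∈ Finset.range (n + 1), 1 / ((i : ℝ) * c + l) ^ 2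
      ≤ 1 / l ^ 2 + 1 / (c * l) - 1 / (c * ((n : ℝ) * c + l)) := by
    intro n
    induction n with
    | zero => simp
    | succ n ih =>
      rw [Finset.sum_range_succ]
      have hA : 0 < (n : ℝ) * c + l := by positivity
      have hB : 0 < ((n + 1 : ℕ) : ℝ) * c + l := by positivity
      have hBA : ((n + 1 : ℕ) : ℝ) * c + l = ((n : ℝ) * c + l) + c := by push_cast; ring
      have h1 : 1 / (((n + 1 : ℕ) : ℝ) * c + l) ^ 2 ≤
          1 / (c * ((n : ℝ) * c + l)) - 1 / (c * (((n + 1 : ℕ) : ℝ) * c + l)) := by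
        rw [hBA]
        set A := (n : ℝ) * c + l with hAdef
        have e : 1 / (c * A) - 1 / (c * (A + c)) = 1 / (A * (A + c)) := by
          field_simp; ring
        rw [e]
        apply one_div_le_one_div_of_le (by positivity)
        nlinarith
      linarith
  rcases Nat.eq_zero_or_pos n with h | h
  · subst h; simp; positivity
  · obtain ⟨m, rfl⟩ : ∃ m, n = m + 1 := ⟨n - 1, by omega⟩
    have := key m
    have h2 : 0 < 1 / (c * ((m : ℝ) * c + l)) := by positivity
    linarith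

/-- The doubling hypothesis. -/
def Dbl (x : ℕ) : Prop :=
  2 * (Nat.primeCounting x : ℝ) ≤ (Nat.primeCounting (2 * x + 1) : ℝ)
    + (Nat.primeCounting (Nat.primeCounting x) : ℝ)
    + ((2 * x + 1 : ℕ) : ℝ) / (20 * Real.log ((2 * x + 1 : ℕ) : ℝ) ^ 2)

theorem iterate {b b' : ℝ} (hb : 0 < b) (hb' : (b ^ 2 + 1 / 10) / (2 * Real.log 2) < b')
    (hD : ∀ᶠ x : ℕ in atTop, Dbl x) (h : PiLe b) : PiLe b' := by
  have hc : 0 < Real.log 2 := Real.log_pos (by norm_num)
  rw [div_lt_iff₀ (by positivity)] at hb'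
  obtain ⟨K, hK1, hK2⟩ := exists_between hb'
  have hKpos : 0 < K := by nlinarith [sq_nonneg b]
  obtain ⟨N1, hN1⟩ := eventually_atTop.1 (pipi_bound hb hK1 h)
  obtain ⟨N2, hN2⟩ := eventually_atTop.1 hD
  obtain ⟨N3, hN3⟩ := eventually_atTop.1 h
  -- the final comparison
  have hfin : ∀ᶠ n : ℕ in atTop,
      K / 2 * (n + 1) * (1 / Real.log n ^ 2 + 1 / (Real.log 2 * Real.log n))
        ≤ b' * n / Real.log n := by
    have g1 : ∀ᶠ n : ℕ in atTop, 1 ≤ Real.log (n : ℝ) := tendsto_log_nat.eventually_ge_atTop _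
    -- need K/2 (1+1/n) (1/log n + 1/log 2) ≤ b'
    have hlim : Tendsto (fun n : ℕ => K / 2 * (1 + 1 / (n : ℝ)) * (1 / Real.log n + 1 / Real.log 2))
        atTop (𝓝 (K / 2 * (1 + 0) * (0 + 1 / Real.log 2))) := by
      apply Tendsto.mul
      · apply Tendsto.mul tendsto_const_nhds
        apply Tendsto.add tendsto_const_nhds
        exact tendsto_one_div_atTop_nhds_zero_nat
      · apply Tendsto.add _ tendsto_const_nhds
        have := tendsto_log_nat.inv_tendsto_atTop
        simp only [one_div]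
        exact this
    have hlt : K / 2 * (1 + 0) * (0 + 1 / Real.log 2) < b' := by
      have : K / 2 * (1 + 0) * (0 + 1 / Real.log 2) = K / (2 * Real.log 2) := by
        field_simp; ring
      rw [this, div_lt_iff₀ (by positivity)]
      exact hK2
    filter_upwards [hlim.eventually (gt_mem_nhds hlt), g1, eventually_gt_atTop 0] with n hn hl hn0
    have hlpos : 0 < Real.log (n : ℝ) := by linarith
    have hn0' : (0 : ℝ) < n := by exact_mod_cast hn0
    have e : K / 2 * ((n : ℝ) + 1) * (1 / Real.log n ^ 2 + 1 / (Real.log 2 * Real.log n))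
        = (K / 2 * (1 + 1 / (n : ℝ)) * (1 / Real.log n + 1 / Real.log 2)) * n / Real.log n := by
      field_simp
    rw [e]
    gcongr
  unfold PiLe
  filter_upwards [hfin, eventually_ge_atTop (N1 + N2 + N3 + 3)] with n0 hfin hn0
  refine le_trans ?_ hfin
  -- the sequence x_i = 2^i (n0+1) - 1
  let x : ℕ → ℕ := fun i => 2 ^ i * (n0 + 1) - 1
  have hx1 : ∀ i, x i + 1 = 2 ^ i * (n0 + 1) := by
    intro i
    have : 1 ≤ 2 ^ i * (n0 + 1) := Nat.mul_pos (by positivity) (by omega)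
    simp only [x]; omega
  have hx0 : x 0 = n0 := by simp [x]
  have hxs : ∀ i, x (i + 1) = 2 * x i + 1 := by
    intro i
    have h1 := hx1 i
    have h2 := hx1 (i + 1)
    rw [pow_succ] at h2
    have : 2 ^ i * 2 * (n0 + 1) = 2 * (2 ^ i * (n0 + 1)) := by ring
    omega
  have hxge : ∀ i, 2 ^ i * n0 ≤ x i := by
    intro i
    have h1 := hx1 i
    have : 1 ≤ 2 ^ i := Nat.one_le_two_pow
    have : 2 ^ i * (n0 + 1) = 2 ^ i * n0 + 2 ^ i := by ring
    omega
  have hxge' : ∀ i, n0 ≤ x i := by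
    intro i
    have h1 := hxge i
    have : 1 ≤ 2 ^ i := Nat.one_le_two_pow
    nlinarith
  set l := Real.log (n0 : ℝ) with hl
  have hn0' : (3 : ℝ) ≤ n0 := by exact_mod_cast (by omega : 3 ≤ n0)
  have hlpos : 0 < l := Real.log_pos (by linarith)
  have hlogx : ∀ i : ℕ, (i : ℝ) * Real.log 2 + l ≤ Real.log (x i : ℝ) := by
    intro i
    have h1 : ((2 ^ i * n0 : ℕ) : ℝ) ≤ (x i : ℝ) := by exact_mod_cast hxge i
    have h2 : (i : ℝ) * Real.log 2 + l = Real.log ((2 ^ i * n0 : ℕ) : ℝ) := by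
      push_cast
      rw [Real.log_mul (by positivity) (by linarith), Real.log_pow]
    rw [h2]
    apply Real.log_le_log _ h1
    push_cast
    positivity
  have hstep : ∀ i, (Nat.primeCounting (x i) : ℝ) / 2 ^ i ≤
      (Nat.primeCounting (x (i + 1)) : ℝ) / 2 ^ (i + 1)
        + K / 2 * (n0 + 1) * (1 / ((i : ℝ) * Real.log 2 + l) ^ 2) := by
    intro i
    have h1 := hN2 (x i) (le_trans (by omega) (hxge' i))
    have h2 := hN1 (x i) (le_trans (by omega) (hxge' i))
    unfold Dbl at h1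
    rw [← hxs] at h1 h2
    have h3 : 2 * (Nat.primeCounting (x i) : ℝ) ≤ (Nat.primeCounting (x (i + 1)) : ℝ)
        + K * (x i) / Real.log (x i) ^ 2 := by linarith
    have hpos : 0 < (i : ℝ) * Real.log 2 + l := by positivity
    have h4 : K * (x i : ℝ) / Real.log (x i) ^ 2 ≤
        K * (2 ^ i * (n0 + 1)) / ((i : ℝ) * Real.log 2 + l) ^ 2 := by
      have hxle : (x i : ℝ) ≤ 2 ^ i * (n0 + 1) := by
        have : x i ≤ 2 ^ i * (n0 + 1) := by have := hx1 i; omega
        exact_mod_cast this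
      have := hlogx i
      gcongr
    have h5 : 2 * (Nat.primeCounting (x i) : ℝ) ≤ (Nat.primeCounting (x (i + 1)) : ℝ)
        + K * (2 ^ i * (n0 + 1)) / ((i : ℝ) * Real.log 2 + l) ^ 2 := by linarith
    have e1 : (Nat.primeCounting (x i) : ℝ) / 2 ^ i =
        (2 * (Nat.primeCounting (x i) : ℝ)) / 2 ^ (i + 1) := by
      rw [pow_succ]; field_simp
    have e2 : (Nat.primeCounting (x (i + 1)) : ℝ) / 2 ^ (i + 1)
        + K / 2 * (n0 + 1) * (1 / ((i : ℝ) * Real.log 2 + l) ^ 2)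
        = ((Nat.primeCounting (x (i + 1)) : ℝ)
        + K * (2 ^ i * (n0 + 1)) / ((i : ℝ) * Real.log 2 + l) ^ 2) / 2 ^ (i + 1) := by
      rw [pow_succ]; field_simp
    rw [e1, e2]
    gcongr
  have hsum : ∀ n : ℕ, (Nat.primeCounting n0 : ℝ) ≤ (Nat.primeCounting (x n) : ℝ) / 2 ^ n
      + K / 2 * (n0 + 1) * ∑ i ∈ Finset.range n, (1 / ((i : ℝ) * Real.log 2 + l) ^ 2) := by
    intro n
    induction n with
    | zero => simp [hx0]
    | succ n ih =>
      have := hstep n
      rw [Finset.sum_range_succ, mul_add]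
      linarith
  have hbd : ∀ n : ℕ, (Nat.primeCounting n0 : ℝ) ≤
      b * (n0 + 1) * (1 / ((n : ℝ) * Real.log 2 + l))
      + K / 2 * (n0 + 1) * (1 / l ^ 2 + 1 / (Real.log 2 * l)) := by
    intro n
    refine le_trans (hsum n) ?_
    apply add_le_add
    · have h1 := hN3 (x n) (le_trans (by omega) (hxge' n))
      have hpos : 0 < (n : ℝ) * Real.log 2 + l := by positivity
      have hxle : (x n : ℝ) ≤ 2 ^ n * (n0 + 1) := by
        have : x n ≤ 2 ^ n * (n0 + 1) := by have := hx1 n; omega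
        exact_mod_cast this
      have hlx := hlogx n
      calc (Nat.primeCounting (x n) : ℝ) / 2 ^ n ≤ (b * (x n) / Real.log (x n)) / 2 ^ n := by
            gcongr
        _ ≤ (b * (2 ^ n * (n0 + 1)) / ((n : ℝ) * Real.log 2 + l)) / 2 ^ n := by
            gcongr
        _ = b * (n0 + 1) * (1 / ((n : ℝ) * Real.log 2 + l)) := by
            field_simp
    · apply mul_le_mul_of_nonneg_left (sum_inv_sq_le hc hlpos n) (by positivity)
  have hlim : Tendsto (fun n : ℕ => b * ((n0 : ℝ) + 1) * (1 / ((n : ℝ) * Real.log 2 + l))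
      + K / 2 * (n0 + 1) * (1 / l ^ 2 + 1 / (Real.log 2 * l))) atTop
      (𝓝 (b * ((n0 : ℝ) + 1) * 0 + K / 2 * (n0 + 1) * (1 / l ^ 2 + 1 / (Real.log 2 * l)))) := by
    apply Tendsto.add _ tendsto_const_nhds
    apply Tendsto.mul tendsto_const_nhds
    have h1 : Tendsto (fun n : ℕ => (n : ℝ) * Real.log 2 + l) atTop atTop := by
      apply tendsto_atTop_add_const_right
      exact Tendsto.atTop_mul_const hc tendsto_natCast_atTop_atTop
    have := h1.inv_tendsto_atTop
    simp only [one_div]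
    exact this
  have := ge_of_tendsto' hlim hbd
  simpa using this

/-- The doubling inequality must fail infinitely often. -/
theorem not_eventually_dbl : ¬ ∀ᶠ x : ℕ in atTop, Dbl x := by
  intro hD
  have l1 := Real.log_two_gt_d9
  have l2 := Real.log_two_lt_d9
  have p0 : PiLe 1.22 := piLe_of_theta (by norm_num) theta_eventually
  have p1 : PiLe 1.147 := iterate (by norm_num)
    (by rw [div_lt_iff₀ (by linarith)]; norm_num; linarith) hD p0
  have p2 : PiLe 1.022 := iterate (by norm_num)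
    (by rw [div_lt_iff₀ (by linarith)]; norm_num; linarith) hD p1
  have p3 : PiLe 0.826 := iterate (by norm_num)
    (by rw [div_lt_iff₀ (by linarith)]; norm_num; linarith) hD p2
  have p4 : PiLe 0.6 := iterate (by norm_num)
    (by rw [div_lt_iff₀ (by linarith)]; norm_num; linarith) hD p3
  have q : ∀ᶠ n : ℕ in atTop, 0.65 * (n : ℝ) / Real.log n ≤ (Nat.primeCounting n : ℝ) :=
    pi_ge_eventually (by linarith)
  have h3 : ∀ᶠ n : ℕ in atTop, 1 ≤ Real.log (n : ℝ) := tendsto_log_nat.eventually_ge_atTop _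
  obtain ⟨n, ⟨h1, h2⟩, h3, h4⟩ :=
    ((p4.and q).and (h3.and (eventually_gt_atTop 0))).exists
  have hn : (0 : ℝ) < n := by exact_mod_cast h4
  have hl : 0 < Real.log (n : ℝ) := by linarith
  have h5 := h2.trans h1
  rw [div_le_div_iff_of_pos_right hl] at h5
  linarith

end Pool.Agent.Lib_f73150
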